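import Pool.Agent.R441.Num

/-!
The conjectured value of `S_p = ∑_{k<p} binom(-1/2,k) binom(-1/3,k) / (-4)^k` modulo `p²` in the
case `p = A² + 3 B²`, `A ≡ 1 (mod 3)`, `A/B ≡ -1, -2 (mod 5)` is wrong for `p = 7`.
-/

set_option autoImplicit false

namespace Pool.Agent.Results.MP_7d0087_nt.SevenFails

open Pool.Agent.R441 (CongMod not_congMod)

/-- `binom(a,k) = a (a-1) ⋯ (a-k+1) / k!` -/
def bc (a : ℚ) (k : ℕ) : ℚ := (∏ j ∈ Finset.range k, (a - j)) / k.factorial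

/-- `S_p = ∑_{k<p} binom(-1/2,k) binom(-1/3,k) / (-4)^k` -/
def S (p : ℕ) : ℚ := ∑ k ∈ Finset.range p, bc (-1 / 2) k * bc (-1 / 3) k / (-4) ^ k

/-- Statement 1 for the prime `p` and all `A`, `B` -/
def Part1 (p : ℕ) : Prop := ∀ A B : ℤ, p % 3 = 1 → (p : ℤ) = A ^ 2 + 3 * B ^ 2 → A % 3 = 1 →
  (5 : ℤ) ∣ A * B → CongMod p 2 (S p) (jacobiSym p 5 * (2 * A - p / (2 * A)))

/-- Statement 2 for the prime `p` and all `A`, `B`; `A/B ≡ -1, -2 (mod 5)` is read as `5 ∤ B` and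
`A ≡ - B` or `A ≡ - 2 B (mod 5)` -/
def Part2 (p : ℕ) : Prop := ∀ A B : ℤ, p % 3 = 1 → (p : ℤ) = A ^ 2 + 3 * B ^ 2 → A % 3 = 1 →
  ¬ (5 : ℤ) ∣ B → ((5 : ℤ) ∣ A + B ∨ (5 : ℤ) ∣ A + 2 * B) →
  CongMod p 2 (S p) (jacobiSym p 5 * (A + 3 * B - p / (A + 3 * B)))

/-- Statement 3 for the prime `p` -/
def Part3 (p : ℕ) : Prop := p % 3 = 2 → CongMod p 1 (S p) 0

/-- There is a prime `p > 5` (namely `p = 7`) for which the three statements do not all hold; it is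
the second one that fails. -/
theorem result : ∃ p : ℕ, p = 7 ∧ p.Prime ∧ 5 < p ∧ ¬ Part2 p ∧
    ¬ (Part1 p ∧ Part2 p ∧ Part3 p) := by
  have key : ¬ Part2 7 := by
    intro h
    have j : jacobiSym 7 5 = -1 := by norm_num
    have h1 := h (-2) 1 (by norm_num) (by norm_num) (by norm_num) (by norm_num) (by norm_num)
    push_cast at h1
    rw [j] at h1
    exact not_congMod (by norm_num) (by decide +kernel) h1
  exact ⟨7, rfl, by norm_num, by norm_num, key, fun h => key h.2.1⟩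

end Pool.Agent.Results.MP_7d0087_nt.SevenFails
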